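import Pool.Agent.W254.LF.Stm2

/-! LF project (helper254), part LF2-RNK (helper930): real places and real roots. -/

set_option autoImplicit false

namespace Pool.Agent.W930.LF

open Polynomial NumberField Pool.Agent.W254.LF

theorem t_RNK : S_RNK := by
  classical
  intro K _ _ θ f hf hθ _ hadj
  have hf0 : f.map (Int.castRingHom ℝ) ≠ 0 := (hf.map _).ne_zero
  have hroot : ∀ φ : K →+* ℝ, φ θ ∈ (f.map (Int.castRingHom ℝ)).roots.toFinset := by
    intro φ
    rw [Multiset.mem_toFinset, mem_roots hf0, IsRoot.def, eval_map]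
    have h1 : φ (aeval θ f) = 0 := by rw [hθ, map_zero]
    rw [aeval_def, hom_eval₂] at h1
    have h2 : φ.comp (algebraMap ℤ K) = Int.castRingHom ℝ := RingHom.ext_int _ _
    rwa [h2] at h1
  have hinj : ∀ φ ψ : K →+* ℝ, φ θ = ψ θ → φ = ψ := by
    intro φ ψ h
    apply RingHom.ext
    intro x
    have hx : x ∈ IntermediateField.adjoin ℚ {θ} := by rw [hadj]; trivial
    induction hx using IntermediateField.adjoin_induction with
    | mem x hx =>
      rw [Set.mem_singleton_iff.1 hx]
      exact h
    | algebraMap x => simp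
    | add x y _ _ hx hy => rw [map_add, map_add, hx, hy]
    | inv x _ hx => rw [map_inv₀, map_inv₀, hx]
    | mul x y _ _ hx hy => rw [map_mul, map_mul, hx, hy]
  unfold InfinitePlace.nrRealPlaces
  rw [← Fintype.card_coe]
  refine Fintype.card_le_of_injective
    (fun w => ⟨InfinitePlace.embedding_of_isReal w.2 θ, hroot _⟩) ?_
  intro w1 w2 h
  have h1 : InfinitePlace.embedding_of_isReal w1.2 = InfinitePlace.embedding_of_isReal w2.2 :=
    hinj _ _ (congrArg Subtype.val h)
  apply Subtype.ext
  rw [← InfinitePlace.mk_embedding w1.1, ← InfinitePlace.mk_embedding w2.1]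
  congr 1
  apply RingHom.ext
  intro x
  rw [← InfinitePlace.embedding_of_isReal_apply w1.2, ← InfinitePlace.embedding_of_isReal_apply w2.2,
    h1]

end Pool.Agent.W930.LF
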